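import Pool.Agent.LeoD.LocStmts
import Pool.Agent.Helper89_LeoG.Den
import Pool.Agent.Helper90_LeoG.Ld2

/-! UPC: the forms modulo `p²` which are maximal and not totally ramified, `p ∣ 2`. -/

set_option autoImplicit false

open NumberField IsDedekindDomain Module

namespace Pool.Agent.LeoD.H37

open Pool.Agent.LeoK Pool.Agent.LeoG Pool.Agent.LeoC
open Pool.Agent.LeoK.H11 (ncard_preimage sq_ne_bot card_quot)
open Pool.Agent.LeoG.H89 (dsc_map)

variable {k : Type} [Field k] [NumberField k]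

/-- the classes modulo `p²` of the forms with discriminant prime to `p`, `p ∣ 2` -/
theorem unit_bound (h2 : Pool.Agent.LeoG.Ld2Stmt) (p : HeightOneSpectrum (𝓞 k))
    (c2 : (2 : 𝓞 k) ∈ p.asIdeal) :
    ((modQ (p.asIdeal ^ 2) '' {v | dsc v ∉ p.asIdeal}).ncard : ℝ) ≤
      np p ^ 8 * ((1 - 1 / np p ^ 2) * (1 - 1 / np p)) := by
  have : Finite (𝓞 k ⧸ p.asIdeal ^ 2) := Ideal.finiteQuotientOfFreeOfNeBot _ (sq_ne_bot p)
  have : Finite (𝓞 k ⧸ p.asIdeal) := Ideal.finiteQuotientOfFreeOfNeBot _ p.ne_bot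
  have hmax : p.asIdeal.IsMaximal := p.isPrime.isMaximal p.ne_bot
  let _ : Field (𝓞 k ⧸ p.asIdeal) := Ideal.Quotient.field p.asIdeal
  let _ : Fintype (𝓞 k ⧸ p.asIdeal) := Fintype.ofFinite _
  have hcard : ((Fintype.card (𝓞 k ⧸ p.asIdeal) : ℕ) : ℝ) = np p := by
    rw [← Nat.card_eq_fintype_card, card_quot]
    rfl
  have h20 : (2 : 𝓞 k ⧸ p.asIdeal) = 0 := by
    have := Ideal.Quotient.eq_zero_iff_mem.2 c2
    rwa [map_ofNat] at this
  have h := h2 (𝓞 k ⧸ p.asIdeal) h20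
  rw [hcard] at h
  have hle : p.asIdeal ^ 2 ≤ p.asIdeal := Ideal.pow_le_self two_ne_zero
  have h1 : modQ (p.asIdeal ^ 2) '' {v | dsc v ∉ p.asIdeal} ⊆
      {w | (fun i => Ideal.Quotient.factor hle (w i)) ∈
        {u : Q4 (𝓞 k ⧸ p.asIdeal) | dsc u ≠ 0}} := by
    rintro w ⟨v, hv, rfl⟩
    show dsc (fun i => Ideal.Quotient.mk p.asIdeal (v i)) ≠ 0
    rw [dsc_map, Ne, Ideal.Quotient.eq_zero_iff_mem]
    exact hv
  have h4 := Set.ncard_le_ncard h1 (Set.toFinite _)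
  have h3 := ncard_preimage (Ideal.Quotient.factor hle) (Ideal.Quotient.factor_surjective hle)
    (Ideal.absNorm p.asIdeal) (by rw [card_quot, map_pow]) (card_quot _)
    {u : Q4 (𝓞 k ⧸ p.asIdeal) | dsc u ≠ 0}
  have h5 : ((modQ (p.asIdeal ^ 2) '' {v | dsc v ∉ p.asIdeal}).ncard : ℝ) ≤
      np p ^ 4 * (({u : Q4 (𝓞 k ⧸ p.asIdeal) | dsc u ≠ 0}).ncard : ℝ) := by
    have := h4.trans h3
    unfold np
    exact_mod_cast this
  have h' : (({u : Q4 (𝓞 k ⧸ p.asIdeal) | dsc u ≠ 0}).ncard : ℝ) =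
      (Nat.card {v : Q4 (𝓞 k ⧸ p.asIdeal) // dsc v ≠ 0} : ℝ) := rfl
  refine h5.trans (le_of_eq ?_)
  rw [h', h]
  ring

/-- the two cases for a form in `Up p` -/
theorem up_sub (drt : DrtStmt) (p : HeightOneSpectrum (𝓞 k)) :
    Up p ⊆ {v | dsc v ∉ p.asIdeal} ∪ Dbl p := by
  intro v hv
  by_cases h : dsc v ∈ p.asIdeal
  · right
    obtain ⟨x, y, z, w, hd, hc, hd'⟩ := drt k p v (by
      rw [mm]
      exact neg_mem h)
    obtain ⟨ha, hb⟩ := hv x y z w hd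
    exact ⟨x, y, z, w, hd, fun h1 => hb ⟨h1, hc, hd'⟩, hc, hd', fun h3 => ha ⟨hc, h3⟩⟩
  · left
    exact h

/-- UPC -/
theorem upc (drt : DrtStmt) (dbc : DbcStmt) : UpcStmt := by
  intro k _ _ p c2
  have : Finite (𝓞 k ⧸ p.asIdeal ^ 2) := Ideal.finiteQuotientOfFreeOfNeBot _ (sq_ne_bot p)
  have h1 : modQ (p.asIdeal ^ 2) '' Up p ⊆
      modQ (p.asIdeal ^ 2) '' {v | dsc v ∉ p.asIdeal} ∪ modQ (p.asIdeal ^ 2) '' Dbl p := by
    rw [← Set.image_union]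
    exact Set.image_mono (up_sub drt p)
  have h2 := (Set.ncard_le_ncard h1 (Set.toFinite _)).trans (Set.ncard_union_le _ _)
  have h3 : ((modQ (p.asIdeal ^ 2) '' Up p).ncard : ℝ) ≤
      ((modQ (p.asIdeal ^ 2) '' {v | dsc v ∉ p.asIdeal}).ncard : ℝ) +
        ((modQ (p.asIdeal ^ 2) '' Dbl p).ncard : ℝ) := by
    exact_mod_cast h2
  have h4 := unit_bound Pool.Agent.LeoG.H90.ld2 p c2
  have h5 := dbc k p
  have hq : 0 < np p := by
    unfold np
    have : Ideal.absNorm p.asIdeal ≠ 0 := by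
      rw [Ne, Ideal.absNorm_eq_zero_iff]
      exact p.ne_bot
    exact_mod_cast Nat.pos_of_ne_zero this
  have h6 : np p ^ 8 * ((1 - 1 / np p ^ 2) * (1 - 1 / np p)) +
      np p ^ 4 * (np p - 1) ^ 2 * (np p + 1) = np p ^ 8 * (1 - 1 / np p ^ 2) ^ 2 := by
    field_simp
    ring
  linarith

end Pool.Agent.LeoD.H37
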